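import Pool.Agent.Helper81.LT.Defs
import Pool.Agent.Helper43.PX.Dim

/-!
Project LT (MP_b8862a_ag), blocks dimA, dimM: Weyl's dimension formula, type `A`, as a Vandermonde product with one or two
deleted points.
-/

namespace LT

open PW PX

/-- product over the pairs `i < j` -/
def DD (n : ℕ) (f : Fin n → Fin n → ℤ) : ℤ := ∏ i, ∏ j ∈ Finset.Ioi i, f i j

theorem DD_eq (n : ℕ) (f : Fin n → Fin n → ℤ) : DD n f = ∏ i, ∏ j, if i < j then f i j else 1 := by
  unfold DD
  refine Finset.prod_congr rfl fun i _ => ?_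
  rw [← Finset.filter_lt_eq_Ioi, Finset.prod_filter]

/-- delete the point `a` -/
theorem DD_succ {n : ℕ} (f : Fin (n + 1) → Fin (n + 1) → ℤ) (a : Fin (n + 1)) :
    DD (n + 1) f = DD n (fun i j => f (a.succAbove i) (a.succAbove j)) *
      ∏ j : Fin n, (if a.succAbove j < a then f (a.succAbove j) a else f a (a.succAbove j)) := by
  rw [DD_eq, DD_eq]
  simp only [Fin.prod_univ_succAbove _ a, lt_irrefl, if_false, one_mul, Finset.prod_mul_distrib,
    Fin.succAbove_lt_succAbove_iff]
  have : (∏ j : Fin n, (if a.succAbove j < a then f (a.succAbove j) a else f a (a.succAbove j))) =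
      (∏ j : Fin n, if a < a.succAbove j then f a (a.succAbove j) else 1) *
        ∏ j : Fin n, if a.succAbove j < a then f (a.succAbove j) a else 1 := by
    rw [← Finset.prod_mul_distrib]
    refine Finset.prod_congr rfl fun j _ => ?_
    rcases lt_or_gt_of_ne (Fin.succAbove_ne a j) with h | h
    · rw [if_pos h, if_neg (not_lt.2 h.le), if_pos h, one_mul]
    · rw [if_neg (not_lt.2 h.le), if_pos h, if_neg (not_lt.2 h.le), mul_one]
  rw [this]
  ring

/-- the product of the distances from `a` -/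
theorem dist_prod (n : ℕ) (a : Fin (n + 1)) :
    (∏ u : Fin (n + 1), if u = a then (1 : ℤ) else |((u : ℕ) : ℤ) - ((a : ℕ) : ℤ)|) = ((a : ℕ).factorial * (n - a).factorial : ℕ) := by
  have h1 : (∏ u : Fin (n + 1), if u = a then (1 : ℤ) else |((u : ℕ) : ℤ) - ((a : ℕ) : ℤ)|) =
      ∏ u ∈ Finset.range (n + 1), (if u = (a : ℕ) then (1 : ℤ) else |(u : ℤ) - ((a : ℕ) : ℤ)|) := by
    rw [Finset.prod_range]
    refine Finset.prod_congr rfl fun u _ => ?_
    simp only [Fin.ext_iff]
  rw [h1]
  obtain ⟨a, ha⟩ := a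
  simp only
  obtain ⟨b, rfl⟩ : ∃ b, n = a + b := ⟨n - a, by omega⟩
  rw [show a + b + 1 = a + (b + 1) by ring, Finset.prod_range_add, Finset.prod_range_succ']
  have e1 : (∏ x ∈ Finset.range a, if x = a then (1 : ℤ) else |(x : ℤ) - (a : ℤ)|) = (a.factorial : ℤ) := by
    clear h1 ha
    rw [← Finset.prod_range_reflect]
    have : ∀ k, k ≤ a → (∏ x ∈ Finset.range k, if a - 1 - x = a then (1 : ℤ) else |((a - 1 - x : ℕ) : ℤ) - (a : ℤ)|) = (k.factorial : ℤ) := by
      intro k hk
      induction k with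
      | zero => simp
      | succ k ih =>
        rw [Finset.prod_range_succ, ih (by omega), if_neg (by omega), Nat.factorial_succ]
        have : |((a - 1 - k : ℕ) : ℤ) - (a : ℤ)| = (k : ℤ) + 1 := by
          rw [abs_of_nonpos (by omega)]
          omega
        rw [this]
        push_cast
        ring
    exact this a le_rfl
  have e2 : (∏ x ∈ Finset.range b, if a + (x + 1) = a then (1 : ℤ) else |((a + (x + 1) : ℕ) : ℤ) - (a : ℤ)|) = (b.factorial : ℤ) := by
    clear h1 ha e1
    induction b with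
    | zero => simp
    | succ b ih =>
      rw [Finset.prod_range_succ, ih, if_neg (by omega), Nat.factorial_succ]
      have : |((a + (b + 1) : ℕ) : ℤ) - (a : ℤ)| = (b : ℤ) + 1 := by
        rw [abs_of_nonneg (by omega)]
        push_cast
        ring
      rw [this]
      push_cast
      ring
  rw [e1, e2]
  have : a + b - a = b := by omega
  simp [this]

/-- the same product after the deletion of `a` -/
theorem dist_prod' (n : ℕ) (a : Fin (n + 1)) :
    (∏ j : Fin n, (if a.succAbove j < a then (((a : ℕ) : ℤ) - ((a.succAbove j : Fin (n + 1)) : ℕ)) else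
      ((((a.succAbove j : Fin (n + 1)) : ℕ) : ℤ) - ((a : ℕ) : ℤ)))) = ((a : ℕ).factorial * (n - a).factorial : ℕ) := by
  rw [← dist_prod n a, Fin.prod_univ_succAbove _ a, if_pos rfl, one_mul]
  refine Finset.prod_congr rfl fun j _ => ?_
  rw [if_neg (Fin.succAbove_ne a j)]
  split_ifs with h
  · have : ((a.succAbove j : Fin (n + 1)) : ℕ) < (a : ℕ) := h
    rw [abs_of_neg (by omega)]
    ring
  · have : ((a : ℕ)) ≤ ((a.succAbove j : Fin (n + 1)) : ℕ) := not_lt.1 h
    rw [abs_of_nonneg (by omega)]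

theorem sA_val {n : ℕ} (a : Fin (n + 1)) (j : Fin n) :
    (((a.succAbove j : Fin (n + 1)) : ℕ) : ℤ) = ((j : ℕ) : ℤ) + 1 - (if (j : ℕ) < (a : ℕ) then 1 else 0) := by
  by_cases h : (j : ℕ) < (a : ℕ)
  · rw [Fin.succAbove_of_castSucc_lt a j (by exact h)]
    simp [h]
  · rw [Fin.succAbove_of_le_castSucc a j (by exact not_lt.1 h)]
    simp [h]

/-- one deletion -/
theorem Pa_one (m : ℕ) (a : Fin (m + 1)) (x : Fin m → ℤ) (hx : ∀ j : Fin m, x j = if (j : ℕ) < (a : ℕ) then 1 else 0) :
    Pa m x * ((a : ℕ).factorial * (m - a).factorial : ℕ) = DD (m + 1) (fun i j => ((j : ℕ) : ℤ) - ((i : ℕ) : ℤ)) := by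
  rw [DD_succ _ a]
  rw [dist_prod' m a]
  congr 1
  unfold Pa DD
  refine Finset.prod_congr rfl fun i _ => Finset.prod_congr rfl fun j _ => ?_
  beta_reduce
  rw [sA_val, sA_val, hx, hx]
  ring

/-- two deletions -/
theorem Pa_two (m : ℕ) (a b : ℕ) (hab : a < b) (hb : b ≤ m + 1) (x : Fin m → ℤ)
    (hx : ∀ j : Fin m, x j = (if (j : ℕ) < a then 1 else 0) + (if (j : ℕ) + 1 < b then 0 else -1)) :
    Pa m x * ((a.factorial * (m + 1 - a).factorial) * (b.factorial * (m + 1 - b).factorial) : ℕ) =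
      DD (m + 2) (fun i j => ((j : ℕ) : ℤ) - ((i : ℕ) : ℤ)) * (b - a) := by
  set B : Fin (m + 2) := ⟨b, by omega⟩ with hB
  set A : Fin (m + 1) := ⟨a, by omega⟩ with hA
  rw [DD_succ _ B]
  rw [dist_prod' (m + 1) B, DD_succ _ A]
  -- the product of the distances from `a` without `b`
  have h1 : (∏ j : Fin m, (if A.succAbove j < A then
      (((B.succAbove A : Fin (m + 2)) : ℕ) : ℤ) - ((B.succAbove (A.succAbove j) : Fin (m + 2)) : ℕ) else
      (((B.succAbove (A.succAbove j) : Fin (m + 2)) : ℕ) : ℤ) - ((B.succAbove A : Fin (m + 2)) : ℕ))) * ((b : ℤ) - a) =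
      ((a.factorial * (m + 1 - a).factorial : ℕ) : ℤ) := by
    have h2 := dist_prod (m + 1) (B.succAbove A)
    have hval : (((B.succAbove A : Fin (m + 2)) : ℕ)) = a := by
      have := sA_val B A
      simp only [hB, hA, if_pos hab] at this
      simp only [hB, hA]
      omega
    rw [hval] at h2
    rw [Fin.prod_univ_succAbove _ B, Fin.prod_univ_succAbove _ A, if_pos rfl, one_mul, if_neg (by
      intro h
      have := congrArg (fun z : Fin (m + 2) => (z : ℕ)) h
      simp only [hval] at this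
      simp only [hB] at this
      omega)] at h2
    have h3 : |(((B : Fin (m + 2)) : ℕ) : ℤ) - (a : ℤ)| = (b : ℤ) - a := by
      rw [abs_of_nonneg (by simp only [hB]; omega)]
    rw [h3] at h2
    rw [← h2, mul_comm]
    congr 1
    refine Finset.prod_congr rfl fun j _ => ?_
    have hne : B.succAbove (A.succAbove j) ≠ B.succAbove A := fun h =>
      Fin.succAbove_ne A j (Fin.succAbove_right_injective h)
    rw [if_neg hne, hval]
    have hlt : B.succAbove (A.succAbove j) < B.succAbove A ↔ A.succAbove j < A := Fin.succAbove_lt_succAbove_iff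
    split_ifs with h
    · have h5 : ((B.succAbove (A.succAbove j) : Fin (m + 2)) : ℕ) < ((B.succAbove A : Fin (m + 2)) : ℕ) := hlt.2 h
      rw [hval] at h5
      rw [abs_of_neg (by omega)]
      ring
    · have h5 : ((B.succAbove A : Fin (m + 2)) : ℕ) ≤ ((B.succAbove (A.succAbove j) : Fin (m + 2)) : ℕ) :=
        not_lt.1 (fun h6 => h (hlt.1 h6))
      rw [hval] at h5
      rw [abs_of_nonneg (by omega)]
  -- the remaining product is `Pa m x`
  have h4 : DD m (fun i j => (((B.succAbove (A.succAbove j) : Fin (m + 2)) : ℕ) : ℤ) -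
      (((B.succAbove (A.succAbove i) : Fin (m + 2)) : ℕ) : ℤ)) = Pa m x := by
    unfold Pa DD
    have hv : ∀ j : Fin m, (((B.succAbove (A.succAbove j) : Fin (m + 2)) : ℕ) : ℤ) = ((j : ℕ) : ℤ) + 1 - x j := by
      intro j
      rw [sA_val B, sA_val A, hx j]
      have h7 := sA_val A j
      simp only [hB, hA] at h7 ⊢
      split_ifs at h7 ⊢ with h8 h9 h10 <;> omega
    refine Finset.prod_congr rfl fun i _ => Finset.prod_congr rfl fun j _ => ?_
    beta_reduce
    rw [hv, hv]
    ring
  rw [h4]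
  push_cast at h1 ⊢
  rw [← h1]
  ring

theorem Pa_zero_ne (m : ℕ) : Pa m 0 ≠ 0 := by
  unfold Pa
  refine Finset.prod_ne_zero_iff.2 fun i _ => Finset.prod_ne_zero_iff.2 fun j hj => ?_
  have h0 : i < j := Finset.mem_Ioi.1 hj
  have h : (i : ℕ) < (j : ℕ) := h0
  simp only [Pi.zero_apply]
  omega

/-- BLOCK DA -/
theorem dimA {m i n : ℕ} (hi : 1 ≤ i) (hm : 2 * i ≤ m) (x : Fin m → ℤ)
    (hx : ∀ j : Fin m, x j = if (j : ℕ) < i then 1 else if m ≤ j + i then -1 else 0)
    (h : n * Pa m 0 = Pa m x) : n + m.choose (i - 1) ^ 2 = m.choose i ^ 2 := by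
  have h1 := Pa_two m i (m + 1 - i) (by omega) (by omega) x (by
    intro j
    rw [hx j]
    have := j.2
    split_ifs <;> omega)
  have h2 := Pa_two m 0 (m + 1) (by omega) le_rfl 0 (by
    intro j
    have := j.2
    simp)
  have hP := Pa_zero_ne m
  rw [← h, show m + 1 - (m + 1 - i) = i by omega] at h1
  rw [Nat.sub_self, Nat.sub_zero] at h2
  have hc := Nat.choose_mul_factorial_mul_factorial (show i ≤ m + 1 by omega)
  set F := i.factorial * (m + 1 - i).factorial with hF
  have hFpos : 0 < F := by positivity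
  -- `n (m + 1) = C(m + 1, i)^2 (m + 1 - 2 i)`
  have hD : DD (m + 2) (fun i j => ((j : ℕ) : ℤ) - ((i : ℕ) : ℤ)) * (m + 1) = Pa m 0 * ((m + 1).factorial * (m + 1).factorial : ℕ) := by
    rw [Nat.factorial_zero] at h2
    push_cast at h2 ⊢
    linear_combination -h2
  have h3 : (n : ℤ) * (m + 1) = ((m + 1).choose i : ℤ) ^ 2 * (m + 1 - 2 * i) := by
    have hc' : ((m + 1).choose i : ℤ) * F = ((m + 1).factorial : ℤ) := by
      have : (m + 1).choose i * F = (m + 1).factorial := by
        rw [hF, ← hc]; ring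
      exact_mod_cast this
    have hne : Pa m 0 * ((F : ℤ) * F) ≠ 0 := mul_ne_zero hP (by positivity)
    apply mul_right_cancel₀ hne
    have hcast : (((m + 1 - i : ℕ)) : ℤ) = (m : ℤ) + 1 - i := by
      rw [Nat.cast_sub (by omega)]; push_cast; ring
    rw [hcast] at h1
    have hF2 : (((i.factorial * (m + 1 - i).factorial * ((m + 1 - i).factorial * i.factorial) : ℕ)) : ℤ) = F * F := by
      rw [hF]; push_cast; ring
    rw [hF2] at h1
    push_cast at hD
    linear_combination ((m : ℤ) + 1) * h1 + (m + 1 - 2 * i) * hD - (((m + 1).choose i : ℤ) * F + (m + 1).factorial) * (Pa m 0) * (m + 1 - 2 * i) * hc'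
  obtain ⟨t, rfl⟩ : ∃ t, i = t + 1 := ⟨i - 1, by omega⟩
  rw [show t + 1 - 1 = t by omega]
  have e1 : (m.choose (t + 1) : ℤ) * (m + 1) = (m + 1).choose (t + 1) * (m + 1 - (t + 1)) := by
    have := Nat.choose_mul_succ_eq m (t + 1)
    have := congrArg (fun z : ℕ => (z : ℤ)) this
    push_cast [Nat.cast_sub (show t ≤ m by omega)] at this
    linarith
  have e2 : (m.choose t : ℤ) * (m + 1) = (m + 1).choose (t + 1) * (t + 1) := by
    have := Nat.add_one_mul_choose_eq m t
    have := congrArg (fun z : ℕ => (z : ℤ)) this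
    push_cast at this
    linarith
  have h5 : ((n + m.choose t ^ 2 : ℕ) : ℤ) = ((m.choose (t + 1) ^ 2 : ℕ) : ℤ) := by
    have hne : ((m : ℤ) + 1) ^ 2 ≠ 0 := by positivity
    apply mul_right_cancel₀ hne
    push_cast at h3 ⊢
    linear_combination ((m : ℤ) + 1) * h3 + (m.choose t * (m + 1) + (m + 1).choose (t + 1) * (t + 1)) * e2 -
      (m.choose (t + 1) * (m + 1) + (m + 1).choose (t + 1) * (m + 1 - (t + 1))) * e1
  exact_mod_cast h5

/-- BLOCK DM (`PaR` is the real form of `Pa`, Helper43/PX/Dim) -/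
theorem dimM {k n : ℕ} (hk : 1 ≤ k) (x : Fin (2 * k) → ℝ)
    (hx : ∀ j : Fin (2 * k), x j = if (j : ℕ) < k then 1 / 2 else -(1 / 2))
    (h : n * PaR (2 * k) 0 = PaR (2 * k) x) : n = (2 * k).choose k := by
  rw [PaR_eq43 (2 * k) (x := 0) (z := 0) (t := 0) (by intro i; simp),
    PaR_eq43 (2 * k) (x := x) (z := fun j => if (j : ℕ) < k then 1 else 0) (t := -(1 / 2)) (by
      intro i
      rw [hx i]
      split_ifs <;> norm_num)] at h
  have h' : (n : ℤ) * Pa (2 * k) 0 = Pa (2 * k) (fun j => if (j : ℕ) < k then 1 else 0) := by exact_mod_cast h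
  have h1 := Pa_one (2 * k) ⟨k, by omega⟩ (fun j => if (j : ℕ) < k then 1 else 0) (fun j => rfl)
  have h2 := Pa_one (2 * k) ⟨0, by omega⟩ 0 (by intro j; simp)
  have hc := Nat.choose_mul_factorial_mul_factorial (show k ≤ 2 * k by omega)
  simp only [show 2 * k - k = k by omega, Nat.sub_zero, Nat.factorial_zero, one_mul] at h1 h2 hc
  rw [← h', ← h2] at h1
  have hP := Pa_zero_ne (2 * k)
  have h3 : (n : ℤ) * ((k.factorial * k.factorial : ℕ) : ℤ) = ((2 * k).factorial : ℤ) := by
    apply mul_left_cancel₀ hP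
    linear_combination h1
  have h4 : n * (k.factorial * k.factorial) = (2 * k).choose k * (k.factorial * k.factorial) := by
    rw [← mul_assoc ((2 * k).choose k), hc]
    exact_mod_cast h3
  exact Nat.eq_of_mul_eq_mul_right (by positivity) h4

end LT
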