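import Pool.Agent.Helper81.LT.Defs

/-!
Project LT (MP_b8862a_ag): from the dimension `n` and the trace identity to the pair `s`, `n - 2 s`.
-/

namespace LT

/-- `C(M, j + 1) (M + 2) (M + 1) = C(M + 2, j + 2) (j + 2) (M - j)` -/
theorem ch2 (M j : ℕ) (hj : j ≤ M) :
    M.choose (j + 1) * ((M + 2) * (M + 1)) = (M + 2).choose (j + 2) * ((j + 2) * (M - j)) := by
  have h1 := Nat.add_one_mul_choose_eq (M + 1) (j + 1)
  have h2 := Nat.choose_mul_succ_eq M (j + 1)
  have h3 : M + 1 - (j + 1) = M - j := by omega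
  rw [h3] at h2
  calc M.choose (j + 1) * ((M + 2) * (M + 1)) = (M.choose (j + 1) * (M + 1)) * (M + 2) := by ring
    _ = ((M + 1).choose (j + 1) * (M - j)) * (M + 2) := by rw [h2]
    _ = ((M + 1 + 1) * (M + 1).choose (j + 1)) * (M - j) := by ring
    _ = _ := by rw [h1]; ring

/-- `C(M + 2, j + 2) = C(M, j) + 2 C(M, j + 1) + C(M, j + 2)` -/
theorem ch3 (M j : ℕ) : (M + 2).choose (j + 2) = M.choose j + 2 * M.choose (j + 1) + M.choose (j + 2) := by
  rw [show M + 2 = (M + 1) + 1 from rfl, show j + 2 = (j + 1) + 1 from rfl, Nat.choose_succ_succ (M + 1) (j + 1),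
    Nat.choose_succ_succ M j, Nat.choose_succ_succ M (j + 1)]
  ring

/-- BLOCK Q1: exterior powers for `SO_N`; for `2 i = N` only `n = C(N, i) / 2` occurs -/
theorem q_so {N i n s : ℕ} (hi : 2 ≤ i) (hN : 5 ≤ N) (h2 : 2 * i ≤ N) (hn : (if 2 * i = N then 2 * n else n) = N.choose i)
    (hs : s * (N * (N - 1)) = n * (i * (N - i))) : Exc s (n - 2 * s) := by
  obtain ⟨j, rfl⟩ := Nat.exists_eq_add_of_le' hi
  obtain ⟨M, rfl⟩ := Nat.exists_eq_add_of_le' (show 2 ≤ N by omega)
  have hM : M + 2 - 1 = M + 1 := by omega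
  have hj : M + 2 - (j + 2) = M - j := by omega
  rw [hM, hj] at hs
  have e2 := ch2 M j (by omega)
  have e3 := ch3 M j
  have hpos : 0 < (M + 2) * (M + 1) := by positivity
  by_cases h : 2 * (j + 2) = M + 2
  · rw [if_pos h] at hn
    -- `2 s = C(M, j + 1)`, `M = 2 j + 2`
    have hs2 : 2 * s = M.choose (j + 1) := by
      have : (2 * s) * ((M + 2) * (M + 1)) = M.choose (j + 1) * ((M + 2) * (M + 1)) := by
        rw [e2, ← hn]
        calc 2 * s * ((M + 2) * (M + 1)) = 2 * (s * ((M + 2) * (M + 1))) := by ring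
          _ = 2 * (n * ((j + 2) * (M - j))) := by rw [hs]
          _ = _ := by ring
      exact Nat.eq_of_mul_eq_mul_right hpos this
    obtain ⟨t, rfl⟩ : ∃ t, j = t + 1 := ⟨j - 1, by omega⟩
    obtain rfl : M = 2 * t + 4 := by omega
    have s1 : (2 * t + 3).choose (t + 2) = (2 * t + 3).choose (t + 1) := by
      rw [← Nat.choose_symm_of_eq_add (show 2 * t + 3 = (t + 2) + (t + 1) by ring)]
    have s2 : (2 * t + 3).choose (t + 3) = (2 * t + 3).choose t := by
      rw [← Nat.choose_symm_of_eq_add (show 2 * t + 3 = (t + 3) + t by ring)]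
    have p1 : (2 * t + 4).choose (t + 1) = (2 * t + 3).choose t + (2 * t + 3).choose (t + 1) :=
      Nat.choose_succ_succ (2 * t + 3) t
    have p2 : (2 * t + 4).choose (t + 2) = (2 * t + 3).choose (t + 1) + (2 * t + 3).choose (t + 2) :=
      Nat.choose_succ_succ (2 * t + 3) (t + 1)
    have p3 : (2 * t + 4).choose (t + 3) = (2 * t + 3).choose (t + 2) + (2 * t + 3).choose (t + 3) :=
      Nat.choose_succ_succ (2 * t + 3) (t + 2)
    simp only [show t + 1 + 1 = t + 2 from rfl, show t + 1 + 2 = t + 3 from rfl] at *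
    have hss : s = (2 * t + 3).choose (t + 1) := by omega
    refine Or.inr (Or.inr (Or.inr (Or.inl ⟨2 * t + 3, t, by omega, Or.inl le_rfl, hss, ?_⟩)))
    omega
  · rw [if_neg h] at hn
    have hs2 : s = M.choose (j + 1) := by
      have : s * ((M + 2) * (M + 1)) = M.choose (j + 1) * ((M + 2) * (M + 1)) := by
        rw [e2, ← hn, hs]
      exact Nat.eq_of_mul_eq_mul_right hpos this
    refine Or.inr (Or.inr (Or.inr (Or.inl ⟨M, j, by omega, Or.inl (by omega), hs2, ?_⟩)))
    omega

/-- BLOCK Q2: primitive exterior powers for `Sp_(2 m)` -/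
theorem q_sp {m i n s : ℕ} (hm : 3 ≤ m) (hi : Even i) (h2 : i + 2 ≤ m) (hn : n + (2 * m).choose i = (2 * m).choose (i + 2))
    (hs : s * (2 * m * (2 * m + 1)) = n * ((i + 2) * (2 * m - i))) : Exc s (n - 2 * s) := by
  obtain ⟨r, rfl⟩ : ∃ r, m = r + 1 := ⟨m - 1, by omega⟩
  have hM : 2 * (r + 1) = 2 * r + 2 := by ring
  rw [hM] at hn hs
  set M := 2 * r with hMdef
  -- key identity over the integers
  have key : ∀ a : ℕ, (i = 0 ∧ a = 0) ∨ (∃ j, i = j + 1 ∧ a = M.choose j) →
      (((M.choose (i + 1) : ℕ) : ℤ) - (a : ℤ)) * ((M + 2 : ℤ) * (M + 3)) =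
        (((M + 2).choose (i + 2) : ℕ) - ((M + 2).choose i : ℕ) : ℤ) * ((i + 2 : ℤ) * (M + 2 - i)) := by
    intro a ha
    -- in terms of `C(M + 2, i + 1)`
    have hiM : i + 1 ≤ M := by omega
    -- `C(M + 2, i + 2) (i + 2) = C(M + 2, i + 1) (M + 1 - i)`
    have f1 : ((M + 2).choose (i + 2) : ℤ) * (i + 2) = (M + 2).choose (i + 1) * (M + 1 - i) := by
      have := Nat.choose_succ_right_eq (M + 2) (i + 1)
      have h' : M + 2 - (i + 1) = M + 1 - i := by omega
      rw [h'] at this
      have := congrArg (fun x : ℕ => (x : ℤ)) this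
      push_cast [Nat.cast_sub (show i ≤ M + 1 by omega)] at this
      linarith
    -- `C(M + 2, i + 1) (i + 1) = C(M + 2, i) (M + 2 - i)`
    have f2 : ((M + 2).choose (i + 1) : ℤ) * (i + 1) = (M + 2).choose i * (M + 2 - i) := by
      have := Nat.choose_succ_right_eq (M + 2) i
      have := congrArg (fun x : ℕ => (x : ℤ)) this
      push_cast [Nat.cast_sub (show i ≤ M + 2 by omega)] at this
      linarith
    -- `C(M, i + 1) (M + 2) (M + 1) = C(M + 2, i + 2) (i + 2) (M - i)`
    have f3 : (M.choose (i + 1) : ℤ) * ((M + 2) * (M + 1)) = (M + 2).choose (i + 2) * ((i + 2) * (M - i)) := by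
      have := ch2 M i (by omega)
      have := congrArg (fun x : ℕ => (x : ℤ)) this
      push_cast [Nat.cast_sub (show i ≤ M by omega)] at this
      linarith
    -- `a (M + 2) (M + 1) = C(M + 2, i) i (M + 2 - i)`
    have f4 : (a : ℤ) * ((M + 2) * (M + 1)) = (M + 2).choose i * (i * (M + 2 - i)) := by
      rcases ha with ⟨h0, h1⟩ | ⟨j, hj, h1⟩
      · subst h1; rw [h0]; simp
      · subst h1
        rcases Nat.eq_zero_or_pos j with h0 | h0
        · subst h0
          rw [hj]
          simp only [Nat.choose_zero_right, Nat.zero_add, Nat.choose_one_right]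
          push_cast
          ring
        · obtain ⟨t, rfl⟩ : ∃ t, j = t + 1 := ⟨j - 1, by omega⟩
          have := ch2 M t (by omega)
          have := congrArg (fun x : ℕ => (x : ℤ)) this
          push_cast [Nat.cast_sub (show t ≤ M by omega)] at this
          rw [hj]
          push_cast
          linarith
    have hp : ((M : ℤ) + 1) ≠ 0 := by positivity
    apply mul_right_cancel₀ hp
    linear_combination ((M : ℤ) + 3) * f3 - ((M : ℤ) + 3) * f4
      + (((M : ℤ) + 3) * (M - i) - (M + 2 - i) * (M + 1)) * f1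
      + (((M : ℤ) + 3) * i - (M + 1) * (i + 2)) * f2
  have hnz : (n : ℤ) = ((M + 2).choose (i + 2) : ℕ) - ((M + 2).choose i : ℕ) := by
    have := congrArg (fun x : ℕ => (x : ℤ)) hn
    push_cast at this
    linarith
  have hsz : (s : ℤ) * ((M + 2 : ℤ) * (M + 3)) = n * ((i + 2 : ℤ) * (M + 2 - i)) := by
    have := congrArg (fun x : ℕ => (x : ℤ)) hs
    push_cast [Nat.cast_sub (show i ≤ M + 2 by omega)] at this
    linarith
  have hp : ((M + 2 : ℤ) * (M + 3)) ≠ 0 := by positivity
  have sa : ∀ a : ℕ, (i = 0 ∧ a = 0) ∨ (∃ j, i = j + 1 ∧ a = M.choose j) → (s : ℤ) = M.choose (i + 1) - a := by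
    intro a ha
    apply mul_right_cancel₀ hp
    rw [hsz, hnz, ← key a ha]
  rcases Nat.eq_zero_or_pos i with h0 | h0
  · subst h0
    have hs1 := sa 0 (Or.inl ⟨rfl, rfl⟩)
    have hs2 : s = M := by
      simp at hs1
      exact_mod_cast hs1
    have hc : M.choose 2 = r * (M - 1) := by
      have := Nat.choose_two_right M
      rw [this, hMdef, Nat.mul_assoc, Nat.mul_div_cancel_left _ (by norm_num)]
    have h3 := ch3 M 0
    simp only [Nat.choose_zero_right, Nat.zero_add, Nat.choose_one_right] at h3 hn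
    refine Or.inr (Or.inr (Or.inr (Or.inr (Or.inl (Or.inl ⟨r, by omega, hs2, ?_⟩)))))
    rw [← hMdef, ← hc]
    omega
  · obtain ⟨t, rfl⟩ : ∃ t, i = t + 2 := by
      obtain ⟨q, hq⟩ := hi
      exact ⟨i - 2, by omega⟩
    have hs1 := sa (M.choose (t + 1)) (Or.inr ⟨t + 1, rfl, rfl⟩)
    have h3 := ch3 M t
    have h4 := ch3 M (t + 2)
    have hev : Even t := by
      rw [Nat.even_add] at hi
      exact hi.2 (by decide)
    simp only [show t + 2 + 1 = t + 3 from rfl, show t + 2 + 2 = t + 4 from rfl] at *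
    have hr : M / 2 = r := by omega
    have m1 := Nat.choose_le_succ_of_lt_half_left (r := t) (n := M) (by omega)
    have m2 := Nat.choose_le_succ_of_lt_half_left (r := t + 1) (n := M) (by omega)
    have m3 := Nat.choose_le_succ_of_lt_half_left (r := t + 2) (n := M) (by omega)
    simp only [show t + 1 + 1 = t + 2 from rfl, show t + 2 + 1 = t + 3 from rfl] at m2 m3
    have m4 : M.choose (t + 2) ≤ M.choose (t + 4) := by
      rcases Nat.lt_or_ge (t + 3) r with hlt | hge
      · have m5 := Nat.choose_le_succ_of_lt_half_left (r := t + 3) (n := M) (by omega)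
        exact m3.trans m5
      · have : M = (t + 4) + (t + 2) := by omega
        rw [← Nat.choose_symm_of_eq_add this]
    refine Or.inr (Or.inr (Or.inr (Or.inr (Or.inl (Or.inr ⟨r, t, hev, by omega, ?_, ?_⟩)))))
    · rw [← hMdef]; omega
    · rw [← hMdef]; omega

/-- BLOCK Q3: type `A`, `Λ^i` and its dual -/
theorem q_a {m i n s : ℕ} (hi : 2 ≤ i) (h2 : 2 * i ≤ m) (hn : n + m.choose (i - 1) ^ 2 = m.choose i ^ 2)
    (hs : s * (m * (m + 1)) = n * (i * (m + 1 - i))) : Exc s (n - 2 * s) := by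
  obtain ⟨j, rfl⟩ := Nat.exists_eq_add_of_le' hi
  obtain ⟨M, rfl⟩ : ∃ M, m = M + 1 := ⟨m - 1, by omega⟩
  have e1 : j + 2 - 1 = j + 1 := by omega
  have e2 : M + 1 + 1 - (j + 2) = M - j := by omega
  rw [e1] at hn
  rw [e2] at hs
  have p1 : (M + 1).choose (j + 2) = M.choose (j + 1) + M.choose (j + 2) := Nat.choose_succ_succ M (j + 1)
  have p2 : (M + 1).choose (j + 1) = M.choose j + M.choose (j + 1) := Nat.choose_succ_succ M j
  have c2 := ch2 M j (by omega)
  have c3 := ch3 M j
  rw [p1, p2] at hn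
  rw [c3] at c2
  set a := M.choose (j + 2)
  set b := M.choose (j + 1)
  set c := M.choose j
  have hnz : (n : ℤ) = ((a : ℤ) - c) * (a + 2 * b + c) := by
    have := congrArg (fun x : ℕ => (x : ℤ)) hn
    push_cast at this
    linear_combination this
  have hc2 : (b : ℤ) * ((M + 2) * (M + 1)) = (c + 2 * b + a) * ((j + 2) * ((M - j : ℕ) : ℤ)) := by
    exact_mod_cast c2
  have hsz : (s : ℤ) * ((M + 1) * (M + 2)) = n * ((j + 2) * ((M - j : ℕ) : ℤ)) := by
    have := congrArg (fun x : ℕ => (x : ℤ)) hs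
    push_cast at this
    linear_combination this
  have hp : (((M : ℤ) + 1) * (M + 2)) ≠ 0 := by positivity
  have hss : (s : ℤ) = b * (a - c) := by
    apply mul_right_cancel₀ hp
    rw [hsz, hnz]
    linear_combination (-(a : ℤ) + c) * hc2
  have hs3 : s + b * c = b * a := by
    have : ((s + b * c : ℕ) : ℤ) = ((b * a : ℕ) : ℤ) := by
      push_cast
      linear_combination hss
    exact_mod_cast this
  have hh : n = 2 * s + (a ^ 2 - c ^ 2) ∧ c ^ 2 ≤ a ^ 2 := by
    have h1 : ((n : ℤ) - 2 * s) + c ^ 2 = a ^ 2 := by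
      rw [hnz, hss]; ring
    have h2s : 2 * s ≤ n := by
      -- `c <= a`
      have hca : c ≤ a := by
        by_cases hb : b = 0
        · exact absurd hb (Nat.choose_pos (by omega)).ne'
        · have : b * c ≤ b * a := by omega
          exact Nat.le_of_mul_le_mul_left this (Nat.pos_of_ne_zero hb)
      have : (2 * s : ℤ) ≤ n := by
        have : (c : ℤ) ≤ a := by exact_mod_cast hca
        have h4 : (c : ℤ) ^ 2 ≤ a ^ 2 := pow_le_pow_left₀ (by positivity) this 2
        linarith
      exact_mod_cast this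
    have h3 : n + c ^ 2 = 2 * s + a ^ 2 := by
      have : ((n + c ^ 2 : ℕ) : ℤ) = ((2 * s + a ^ 2 : ℕ) : ℤ) := by
        push_cast; linear_combination h1
      exact_mod_cast this
    omega
  refine Or.inr (Or.inr (Or.inr (Or.inr (Or.inr (Or.inl ⟨M, j, by omega, ?_, ?_⟩)))))
  · exact hs3
  · change n - 2 * s + c ^ 2 = a ^ 2
    omega

/-- BLOCK Q4: the middle exterior power, `y` the second fundamental coweight, resp. the sum of the first and the last -/
theorem q_m {k n s : ℕ} (hk : 4 ≤ k) (he : Even k) (hn : n = (2 * k).choose k)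
    (hs : s * (2 * (2 * k - 1)) = n * (k - 1) ∨ s * (2 * (2 * k - 1)) = n * k) : Exc s (n - 2 * s) := by
  obtain ⟨t, rfl⟩ : ∃ t, k = t + 2 := ⟨k - 2, by omega⟩
  have e1 : 2 * (t + 2) = (2 * t + 2) + 2 := by ring
  have e2 : 2 * t + 2 + 2 - 1 = 2 * t + 3 := by omega
  have e3 : t + 2 - 1 = t + 1 := by omega
  have e4 : 2 * (t + 2) - 2 = 2 * t + 2 := by omega
  rw [e1] at hn
  rw [e1, e2, e3] at hs
  have c2 := ch2 (2 * t + 2) t (by omega)
  have c3 := ch3 (2 * t + 2) t
  have e5 : 2 * t + 2 - t = t + 2 := by omega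
  rw [e5] at c2
  have sy : (2 * t + 2).choose (t + 2) = (2 * t + 2).choose t := by
    rw [← Nat.choose_symm_of_eq_add (show 2 * t + 2 = (t + 2) + t by ring)]
  -- `C(2 t + 2, t + 2) (t + 2) = C(2 t + 2, t + 1) (t + 1)`
  have r1 := Nat.choose_succ_right_eq (2 * t + 2) (t + 1)
  have e6 : 2 * t + 2 - (t + 1) = t + 1 := by omega
  rw [e6] at r1
  rw [← hn] at c2 c3
  set b := (2 * t + 2).choose (t + 1)
  set a := (2 * t + 2).choose (t + 2)
  -- `b (2 t + 4) (2 t + 3) = n (t + 2)^2`
  have hb : b * (2 * (2 * t + 3)) = n * (t + 2) := by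
    have : (b * (2 * (2 * t + 3))) * (t + 2) = (n * (t + 2)) * (t + 2) := by
      calc (b * (2 * (2 * t + 3))) * (t + 2) = b * ((2 * t + 2 + 2) * (2 * t + 2 + 1)) := by ring
        _ = n * ((t + 2) * (t + 2)) := c2
        _ = _ := by ring
    exact Nat.eq_of_mul_eq_mul_right (by omega) this
  rcases hs with hs | hs
  · -- `s = a`
    have hsa : s = a := by
      have h1 : (s * (t + 2)) * (2 * (2 * t + 3)) = (a * (t + 2)) * (2 * (2 * t + 3)) := by
        calc (s * (t + 2)) * (2 * (2 * t + 3)) = (s * (2 * (2 * t + 3))) * (t + 2) := by ring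
          _ = (n * (t + 1)) * (t + 2) := by rw [hs]
          _ = (n * (t + 2)) * (t + 1) := by ring
          _ = (b * (2 * (2 * t + 3))) * (t + 1) := by rw [hb]
          _ = (b * (t + 1)) * (2 * (2 * t + 3)) := by ring
          _ = _ := by rw [← r1]
      have h2 := Nat.eq_of_mul_eq_mul_right (by omega) h1
      exact Nat.eq_of_mul_eq_mul_right (by omega) h2
    refine Or.inr (Or.inr (Or.inr (Or.inr (Or.inr (Or.inr (Or.inl ⟨t + 2, hk, he, ?_, ?_⟩))))))
    · rw [e4]; exact hsa
    · rw [e4, e3]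
      change n - 2 * s = 2 * b
      omega
  · have hsb : s = b := by
      have h1 : s * (2 * (2 * t + 3)) = b * (2 * (2 * t + 3)) := by rw [hs, hb]
      exact Nat.eq_of_mul_eq_mul_right (by omega) h1
    have hev : Even t := by
      rw [Nat.even_add] at he
      exact he.2 (by decide)
    refine Or.inr (Or.inr (Or.inr (Or.inl ⟨2 * t + 2, t, by omega, Or.inr ⟨by omega, hev⟩, hsb, ?_⟩)))
    change n - 2 * s = a + (2 * t + 2).choose t
    omega

end LT
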